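import Pool.Agent.K1H9.RP.Ae

/-!
# Integrability of the determinant
-/

set_option autoImplicit false

open MeasureTheory ProbabilityTheory Matrix
open scoped BigOperators ENNReal

namespace Pool.Agent.K1H65.RP

open Pool.Agent.K1H9.RP

theorem integrable_coord {d : ℕ} (c : Fin d) : Integrable (fun x : Fin d → ℝ => x c) (gv (Fin d)) := by
  have h : Integrable (fun y : ℝ => y) G1 := by
    unfold G1
    exact IsGaussian.integrable_id
  exact integrable_eval h

theorem integrable_hom {d : ℕ} (c : Fin (d + 1)) :
    Integrable (fun x : Fin d → ℝ => hom x c) (gv (Fin d)) := by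
  refine Fin.cases ?_ (fun c => ?_) c
  · simp only [hom_zero]
    exact integrable_const _
  · simp only [hom_succ]
    exact integrable_coord c

theorem integrable_det (d : ℕ) : Integrable (fun Y => (BM Y).det) (gp (Fin (d + 1)) d) := by
  simp_rw [Matrix.det_apply']
  refine integrable_finsetSum _ fun σ _ => Integrable.const_mul ?_ _
  have h1 : (fun Y : Fin (d + 1) → Fin d → ℝ => ∏ i, BM Y (σ i) i) =
      fun Y => ∏ k, hom (Y k) (σ.symm k) := by
    funext Y
    rw [← Equiv.prod_comp σ (fun k => hom (Y k) (σ.symm k))]
    refine Finset.prod_congr rfl fun i _ => ?_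
    rw [BM_apply, Equiv.symm_apply_apply]
  rw [h1]
  unfold gp
  exact Integrable.fintype_prod (f := fun k x => hom x (σ.symm k)) fun k => integrable_hom _

theorem integrable_abs_det (d : ℕ) : Integrable (fun Y => |(BM Y).det|) (gp (Fin (d + 1)) d) :=
  (integrable_det d).abs

end Pool.Agent.K1H65.RP
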