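import Pool.Agent.K1H9.RP.Stm

/-!
# Piece RP-OFF (S_OFF) for helper9
-/

set_option autoImplicit false

open MeasureTheory ProbabilityTheory Matrix
open scoped BigOperators ENNReal

namespace Pool.Agent.K1H65.RP

open Pool.Agent.K1H9.RP

instance : IsProbabilityMeasure G1 := by unfold G1; infer_instance

instance (κ : Type) [Fintype κ] : IsProbabilityMeasure (gv κ) := by unfold gv; infer_instance

instance (κ : Type) [Fintype κ] (d : ℕ) : IsProbabilityMeasure (gp κ d) := by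
  unfold gp; infer_instance

theorem dot_hom {d : ℕ} (p : Fin (d + 1) → ℝ) (x : Fin d → ℝ) :
    p ⬝ᵥ hom x = p 0 + ∑ c : Fin d, p c.succ * x c := by
  unfold dotProduct hom
  rw [Fin.sum_univ_succ]
  simp

/-- the law of `p . hom x - h` -/
theorem law_lin {d : ℕ} (p : Fin (d + 1) → ℝ) :
    ((gv (Fin d)).prod G1).map (fun y => p ⬝ᵥ hom y.1 - y.2) =
      gaussianReal (p 0) (1 + ∑ c : Fin d, p c.succ ^ 2).toNNReal := by
  have hm : Measurable fun y : (Fin d → ℝ) × ℝ => p ⬝ᵥ hom y.1 - y.2 := by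
    simp only [dot_hom]
    fun_prop
  have := Measure.isProbabilityMeasure_map (μ := (gv (Fin d)).prod G1) hm.aemeasurable
  apply Measure.ext_of_charFun
  ext t
  rw [charFun_gaussianReal, charFun_apply_real, integral_map hm.aemeasurable
    (Measurable.aestronglyMeasurable (by fun_prop))]
  have h1 : ∀ y : (Fin d → ℝ) × ℝ, Complex.exp (t * ((p ⬝ᵥ hom y.1 - y.2 : ℝ) : ℂ) * Complex.I) =
      (Complex.exp (t * p 0 * Complex.I) * ∏ c : Fin d,
        Complex.exp ((t * p c.succ : ℝ) * y.1 c * Complex.I)) *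
        Complex.exp ((-t : ℝ) * y.2 * Complex.I) := by
    intro y
    rw [← Complex.exp_sum, ← Complex.exp_add, ← Complex.exp_add, dot_hom]
    congr 1
    push_cast
    rw [← Finset.sum_mul]
    have : ∑ c : Fin d, (t : ℂ) * (p c.succ : ℂ) * (y.1 c : ℂ) =
        t * ∑ c : Fin d, (p c.succ : ℂ) * (y.1 c : ℂ) := by
      rw [Finset.mul_sum]
      exact Finset.sum_congr rfl fun c _ => by ring
    rw [this]
    ring
  simp_rw [h1]
  rw [integral_prod_mul (μ := gv (Fin d)) (ν := G1)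
    (fun x : Fin d → ℝ => Complex.exp (t * p 0 * Complex.I) * ∏ c : Fin d,
        Complex.exp ((t * p c.succ : ℝ) * x c * Complex.I))
    (fun h : ℝ => Complex.exp ((-t : ℝ) * h * Complex.I)), integral_const_mul]
  unfold gv G1
  rw [integral_fintype_prod_eq_prod (f := fun (c : Fin d) (x : ℝ) =>
    Complex.exp ((t * p c.succ : ℝ) * x * Complex.I))]
  simp_rw [← charFun_apply_real, charFun_gaussianReal]
  rw [← Complex.exp_sum, ← Complex.exp_add, ← Complex.exp_add]
  congr 1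
  rw [Real.coe_toNNReal _ (by positivity)]
  push_cast
  simp only [mul_zero, zero_mul, zero_sub, one_mul]
  rw [Finset.sum_neg_distrib, ← Finset.sum_div]
  have : ∑ c : Fin d, ((t : ℂ) * (p c.succ : ℂ)) ^ 2 = t ^ 2 * ∑ c : Fin d, (p c.succ : ℂ) ^ 2 := by
    rw [Finset.mul_sum]
    exact Finset.sum_congr rfl fun c _ => by ring
  rw [this]
  ring

theorem prob_one {d : ℕ} (p : Fin (d + 1) → ℝ) (s : ℝ) (hs : s = 1 ∨ s = -1) :
    ((gv (Fin d)).prod G1) {y | 0 < s * (p ⬝ᵥ hom y.1 - y.2)} = ENNReal.ofReal (Phi (s * sd p)) := by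
  have hm : Measurable fun y : (Fin d → ℝ) × ℝ => p ⬝ᵥ hom y.1 - y.2 := by
    simp only [dot_hom]
    fun_prop
  have hs2 : s ^ 2 = 1 := by rcases hs with rfl | rfl <;> norm_num
  obtain ⟨σ, hσ⟩ : ∃ σ : ℝ, σ = Real.sqrt (1 + ∑ c : Fin d, p c.succ ^ 2) := ⟨_, rfl⟩
  have hpos : 0 < 1 + ∑ c : Fin d, p c.succ ^ 2 := by positivity
  have hσ0 : 0 < σ := by rw [hσ]; exact Real.sqrt_pos.mpr hpos
  have hσ2 : σ ^ 2 = 1 + ∑ c : Fin d, p c.succ ^ 2 := by rw [hσ]; exact Real.sq_sqrt hpos.le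
  have hset : MeasurableSet {z : ℝ | 0 < s * z} := measurableSet_lt (by fun_prop) (by fun_prop)
  have h1 : ((gv (Fin d)).prod G1) {y | 0 < s * (p ⬝ᵥ hom y.1 - y.2)} =
      (((gv (Fin d)).prod G1).map (fun y => p ⬝ᵥ hom y.1 - y.2)) {z | 0 < s * z} := by
    rw [Measure.map_apply hm hset]
    rfl
  have h2 : gaussianReal (p 0) (1 + ∑ c : Fin d, p c.succ ^ 2).toNNReal =
      G1.map (fun z => p 0 + (-(s * σ)) * z) := by
    have h3 : (fun z : ℝ => p 0 + (-(s * σ)) * z) = (fun z => p 0 + z) ∘ (fun z => (-(s * σ)) * z) :=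
      rfl
    unfold G1
    rw [h3, ← Measure.map_map (by fun_prop) (by fun_prop), gaussianReal_map_const_mul,
      gaussianReal_map_const_add]
    congr 1
    · simp
    · ext
      rw [Real.coe_toNNReal _ hpos.le]
      simp only [NNReal.coe_mul, NNReal.coe_mk, NNReal.coe_one, mul_one]
      rw [← hσ2]
      linear_combination (-σ ^ 2) * hs2
  have h3 : (fun z => p 0 + (-(s * σ)) * z) ⁻¹' {z | 0 < s * z} = Set.Iio (s * sd p) := by
    ext z
    simp only [Set.mem_preimage, Set.mem_ofPred_eq, Set.mem_Iio]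
    have h4 : sd p = p 0 / σ := by rw [hσ]; rfl
    rw [h4, ← mul_div_assoc, lt_div_iff₀ hσ0]
    have h5 : s * (p 0 + -(s * σ) * z) = s * p 0 - z * σ := by
      linear_combination (-σ * z) * hs2
    rw [h5]
    constructor <;> intro h <;> linarith
  rw [h1, law_lin, h2, Measure.map_apply (by fun_prop) hset, h3]
  unfold Phi
  rw [Measure.real, ENNReal.ofReal_toReal (measure_ne_top _ _)]
  have : NullSingletonClass G1 := nullSingletonClass_gaussianReal one_ne_zero
  exact measure_congr Iio_ae_eq_Iic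

theorem t_OFF : S_OFF := by
  intro d κ _ s hs p
  have hmp := measurePreserving_arrowProdEquivProdArrow (Fin d → ℝ) ℝ κ (fun _ => gv (Fin d))
    (fun _ => G1)
  have h1 : ((gp κ d).prod (gv κ)) {q | ∀ i, 0 < s i * (p ⬝ᵥ hom (q.1 i) - q.2 i)} =
      ∏ i, ENNReal.ofReal (Phi (s i * sd p)) := by
    have h2 := hmp.measure_preimage_equiv {q | ∀ i, 0 < s i * (p ⬝ᵥ hom (q.1 i) - q.2 i)}
    have h3 : (MeasurableEquiv.arrowProdEquivProdArrow (Fin d → ℝ) ℝ κ) ⁻¹'
        {q | ∀ i, 0 < s i * (p ⬝ᵥ hom (q.1 i) - q.2 i)} =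
        Set.univ.pi fun i => {y : (Fin d → ℝ) × ℝ | 0 < s i * (p ⬝ᵥ hom y.1 - y.2)} := by
      ext q
      simp only [Set.mem_preimage, Set.mem_ofPred_eq, Set.mem_pi, Set.mem_univ, true_imp_iff]
      rfl
    rw [h3, Measure.pi_pi] at h2
    change ((Measure.pi fun _ : κ => gv (Fin d)).prod (Measure.pi fun _ : κ => G1)) _ = _
    rw [← h2]
    exact Finset.prod_congr rfl fun i _ => prob_one p (s i) (hs i)
  rw [Measure.real, h1, ENNReal.toReal_prod]
  exact Finset.prod_congr rfl fun i _ => ENNReal.toReal_ofReal (by unfold Phi; exact measureReal_nonneg)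

end Pool.Agent.K1H65.RP
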