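import Pool.Agent.K1H65.RP.DetInt

/-!
# Piece RP-QF (S_QF) for helper9
-/

set_option autoImplicit false

open MeasureTheory ProbabilityTheory Matrix
open scoped BigOperators ENNReal

namespace Pool.Agent.K1H65.RP

open Pool.Agent.K1H9.RP

/-- the integrand in `S_QS` -/
noncomputable def qsf (d j : ℕ) (ρ : ℝ) (Y : Fin (d + 1) → Fin d → ℝ) (r : Fin (d + 1) → ℝ) : ℝ :=
  Set.indicator {r : Fin (d + 1) → ℝ | pat j r ∧ 0 < ∑ i, r i}
      (fun r => Real.exp (-∑ i, r i) * ((Real.sqrt (2 * Real.pi))⁻¹ ^ d *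
        (((∑ i, r i) * ρ)⁻¹ ^ d *
          Real.exp (-(∑ l : Fin d, (∑ i, r i * Y i l) ^ 2) /
            (2 * ((∑ i, r i) * ρ) ^ 2))))) r

theorem qsf_nonneg {d j : ℕ} {ρ : ℝ} (hρ : 0 < ρ) (Y : Fin (d + 1) → Fin d → ℝ)
    (r : Fin (d + 1) → ℝ) : 0 ≤ qsf d j ρ Y r := by
  unfold qsf
  refine Set.indicator_nonneg (fun r hr => ?_) r
  have := hr.2
  positivity

theorem qsf_measurable (d j : ℕ) (ρ : ℝ) :
    Measurable fun q : (Fin (d + 1) → Fin d → ℝ) × (Fin (d + 1) → ℝ) => qsf d j ρ q.1 q.2 := by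
  have h1 : MeasurableSet {r : Fin (d + 1) → ℝ | pat j r ∧ 0 < ∑ i, r i} :=
    (measurableSet_pat j).inter (measurableSet_lt measurable_const
      (Finset.measurable_sum _ fun i _ => measurable_pi_apply i))
  have h2 : (fun q : (Fin (d + 1) → Fin d → ℝ) × (Fin (d + 1) → ℝ) => qsf d j ρ q.1 q.2) =
      Set.indicator (Prod.snd ⁻¹' {r : Fin (d + 1) → ℝ | pat j r ∧ 0 < ∑ i, r i})
        (fun q : (Fin (d + 1) → Fin d → ℝ) × (Fin (d + 1) → ℝ) =>
          Real.exp (-∑ i, q.2 i) * ((Real.sqrt (2 * Real.pi))⁻¹ ^ d *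
        (((∑ i, q.2 i) * ρ)⁻¹ ^ d *
          Real.exp (-(∑ l : Fin d, (∑ i, q.2 i * q.1 i l) ^ 2) /
            (2 * ((∑ i, q.2 i) * ρ) ^ 2))))) := rfl
  rw [h2]
  refine Measurable.indicator ?_ (measurable_snd h1)
  have h3 : Measurable fun q : (Fin (d + 1) → Fin d → ℝ) × (Fin (d + 1) → ℝ) => ∑ i, q.2 i := by
    fun_prop
  have h4 : Measurable fun q : (Fin (d + 1) → Fin d → ℝ) × (Fin (d + 1) → ℝ) =>
      ∑ l : Fin d, (∑ i, q.2 i * q.1 i l) ^ 2 := by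
    refine Finset.measurable_sum _ fun l _ => (Finset.measurable_sum _ fun i _ => ?_).pow_const 2
    exact ((measurable_pi_apply i).comp measurable_snd).mul
      ((measurable_pi_apply l).comp ((measurable_pi_apply i).comp measurable_fst))
  exact (h3.neg.exp).mul (((h3.mul_const ρ).inv.pow_const d |>.mul
    ((h4.neg.div (((h3.mul_const ρ).pow_const 2).const_mul 2)).exp)).const_mul _)

theorem qf_of (hQJ : S_QJ) (hQS : S_QS) (hdet : ∀ d : ℕ, ∀ᵐ Y ∂(gp (Fin (d + 1)) d),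
    (BM Y).det ≠ 0) (hint : ∀ d : ℕ, Integrable (fun Y => |(BM Y).det|) (gp (Fin (d + 1)) d)) :
    S_QF := by
  intro d
  obtain ⟨K, hK, hJ⟩ := hQJ d
  obtain ⟨C0, hC0⟩ : ∃ C0 : ℝ, C0 = K * (Real.sqrt (2 * Real.pi))⁻¹ ^ d := ⟨_, rfl⟩
  have hC0pos : 0 < C0 := by rw [hC0]; positivity
  refine ⟨C0, hC0pos, fun j ρ hρ => ?_⟩
  -- the inner integral
  have hQ : ∀ᵐ Y ∂(gp (Fin (d + 1)) d), Integrable (qsf d j ρ Y) ∧
      (gv (Fin d)).real {g | pat j (bary Y (ρ • g))} = |(BM Y).det| * ∫ r, qsf d j ρ Y r := by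
    filter_upwards [hdet d] with Y hY
    exact hQS d j Y hY ρ hρ
  have hinner : ∀ r : Fin (d + 1) → ℝ, ∫ Y, (BM Y).det ^ 2 * qsf d j ρ Y r ∂(gp (Fin (d + 1)) d) =
      (C0 * (((d : ℝ) + 1) * ρ ^ 2 + 1)) * irf d j ρ r := by
    intro r
    by_cases hr : pat j r ∧ 0 < ∑ i, r i
    · have hs := hr.2
      have h1 : ∀ Y, (BM Y).det ^ 2 * qsf d j ρ Y r =
          (Real.exp (-∑ i, r i) * (Real.sqrt (2 * Real.pi))⁻¹ ^ d * ((∑ i, r i) * ρ)⁻¹ ^ d) *
            ((BM Y).det ^ 2 * Real.exp (-(∑ l : Fin d, (∑ i, r i * Y i l) ^ 2) /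
            (2 * ((∑ i, r i) * ρ) ^ 2))) := by
        intro Y
        unfold qsf
        rw [Set.indicator_of_mem (show r ∈ {r : Fin (d + 1) → ℝ | pat j r ∧ 0 < ∑ i, r i} from hr)]
        ring
      simp_rw [h1]
      rw [integral_const_mul, hJ r ((∑ i, r i) * ρ) (by positivity)]
      unfold irf
      rw [Set.indicator_of_mem (show r ∈ {r : Fin (d + 1) → ℝ | pat j r ∧ 0 < ∑ i, r i} from hr)]
      obtain ⟨s, hs'⟩ : ∃ s, s = ∑ i, r i := ⟨_, rfl⟩
      obtain ⟨q, hq⟩ : ∃ q, q = ∑ i, r i ^ 2 := ⟨_, rfl⟩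
      have hq0 : 0 ≤ q := by rw [hq]; positivity
      rw [← hs', ← hq]
      rw [← hs'] at hs
      have hsρ : 0 < s * ρ := by positivity
      have h2 : Real.sqrt (1 + q / (s * ρ) ^ 2) = Real.sqrt (s ^ 2 * ρ ^ 2 + q) / (s * ρ) := by
        have : 1 + q / (s * ρ) ^ 2 = (s ^ 2 * ρ ^ 2 + q) / (s * ρ) ^ 2 := by
          field_simp
        rw [this, Real.sqrt_div' _ (by positivity), Real.sqrt_sq hsρ.le]
      have h3 : 0 < Real.sqrt (s ^ 2 * ρ ^ 2 + q) := Real.sqrt_pos.mpr (by positivity)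
      obtain ⟨R, hR⟩ : ∃ R, R = Real.sqrt (s ^ 2 * ρ ^ 2 + q) := ⟨_, rfl⟩
      obtain ⟨P, hP⟩ : ∃ P, P = (Real.sqrt (2 * Real.pi))⁻¹ ^ d := ⟨_, rfl⟩
      have h6 : (R / (s * ρ))⁻¹ ^ (d + 2) = (s * ρ) ^ d * (s * ρ) ^ 2 * R⁻¹ ^ (d + 2) := by
        rw [inv_div, div_eq_mul_inv, mul_pow, pow_add (s * ρ)]
      have h7 : (s * ρ)⁻¹ ^ d * (s * ρ) ^ d = 1 := by
        rw [← mul_pow, inv_mul_cancel₀ hsρ.ne', one_pow]
      have h8 : ((d : ℝ) + 1 + s ^ 2 / (s * ρ) ^ 2) * (s * ρ) ^ 2 =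
          s ^ 2 * (((d : ℝ) + 1) * ρ ^ 2 + 1) := by
        field_simp
      rw [h2, hC0, ← hR, ← hP, h6]
      linear_combination (Real.exp (-s) * P * K * R⁻¹ ^ (d + 2) *
        (((d : ℝ) + 1 + s ^ 2 / (s * ρ) ^ 2) * (s * ρ) ^ 2)) * h7 +
        (Real.exp (-s) * P * K * R⁻¹ ^ (d + 2)) * h8
    · have h1 : ∀ Y, (BM Y).det ^ 2 * qsf d j ρ Y r = 0 := by
        intro Y
        unfold qsf
        rw [Set.indicator_of_notMem (show r ∉ {r : Fin (d + 1) → ℝ | pat j r ∧ 0 < ∑ i, r i} from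
          hr), mul_zero]
      simp_rw [h1]
      unfold irf
      rw [Set.indicator_of_notMem (show r ∉ {r : Fin (d + 1) → ℝ | pat j r ∧ 0 < ∑ i, r i} from
          hr), mul_zero, integral_zero]
  have hmeas : Measurable fun q : (Fin (d + 1) → Fin d → ℝ) × (Fin (d + 1) → ℝ) =>
      (BM q.1).det ^ 2 * qsf d j ρ q.1 q.2 :=
    ((continuous_det_BM.measurable.comp measurable_fst).pow_const 2).mul (qsf_measurable d j ρ)
  have hprod : Integrable (fun q : (Fin (d + 1) → Fin d → ℝ) × (Fin (d + 1) → ℝ) =>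
      (BM q.1).det ^ 2 * qsf d j ρ q.1 q.2) ((gp (Fin (d + 1)) d).prod volume) := by
    rw [integrable_prod_iff hmeas.aestronglyMeasurable]
    refine ⟨?_, ?_⟩
    · filter_upwards [hQ] with Y hY
      exact hY.1.const_mul _
    · have h1 : (fun Y => ∫ r, ‖(BM Y).det ^ 2 * qsf d j ρ Y r‖) =ᵐ[gp (Fin (d + 1)) d]
          fun Y => |(BM Y).det| * (gv (Fin d)).real {g | pat j (bary Y (ρ • g))} := by
        filter_upwards [hQ] with Y hY
        have h2 : ∀ r, ‖(BM Y).det ^ 2 * qsf d j ρ Y r‖ = (BM Y).det ^ 2 * qsf d j ρ Y r :=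
          fun r => Real.norm_of_nonneg (mul_nonneg (sq_nonneg _) (qsf_nonneg hρ Y r))
        simp_rw [h2]
        rw [integral_const_mul, hY.2, ← mul_assoc, ← sq, sq_abs]
      have h3 : AEStronglyMeasurable (fun Y => ∫ r, ‖(BM Y).det ^ 2 * qsf d j ρ Y r‖)
          (gp (Fin (d + 1)) d) :=
        (hmeas.aestronglyMeasurable.norm (μ := (gp (Fin (d + 1)) d).prod volume)).integral_prod_right'
      refine Integrable.mono (hint d) h3 ?_
      filter_upwards [h1] with Y hY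
      rw [hY, Real.norm_of_nonneg (mul_nonneg (abs_nonneg _) measureReal_nonneg),
        Real.norm_of_nonneg (abs_nonneg _)]
      exact mul_le_of_le_one_right (abs_nonneg _) measureReal_le_one
  have hc : 0 < C0 * (((d : ℝ) + 1) * ρ ^ 2 + 1) := by positivity
  constructor
  · have h1 := hprod.integral_prod_right
    have h2 : (fun r => ∫ Y, (BM Y).det ^ 2 * qsf d j ρ Y r ∂(gp (Fin (d + 1)) d)) =
        fun r => (C0 * (((d : ℝ) + 1) * ρ ^ 2 + 1)) * irf d j ρ r := funext hinner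
    have h3 : Integrable (fun r => (C0 * (((d : ℝ) + 1) * ρ ^ 2 + 1)) * irf d j ρ r) := by
      rw [← h2]
      exact h1
    have h4 := h3.const_mul (C0 * (((d : ℝ) + 1) * ρ ^ 2 + 1))⁻¹
    refine h4.congr (Filter.Eventually.of_forall fun r => ?_)
    change _ * (_ * irf d j ρ r) = _
    rw [← mul_assoc, inv_mul_cancel₀ hc.ne', one_mul]
  · have h1 : qq d j ρ = ∫ Y, ∫ r, (BM Y).det ^ 2 * qsf d j ρ Y r ∂volume
        ∂(gp (Fin (d + 1)) d) := by
      unfold qq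
      refine integral_congr_ae ?_
      filter_upwards [hQ] with Y hY
      rw [integral_const_mul, hY.2, ← mul_assoc, ← sq, sq_abs]
    rw [h1, integral_integral_swap hprod]
    simp_rw [hinner]
    rw [integral_const_mul]
    rfl

theorem t_QF (hQJ : S_QJ) (hQS : S_QS) : S_QF :=
  qf_of hQJ hQS ae_det_ne_zero integrable_abs_det

end Pool.Agent.K1H65.RP
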