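import Pool.Agent.K1H65.RP.DetInt

/-!
# Piece RP-TF (S_TF) for helper9
-/

set_option autoImplicit false

open MeasureTheory ProbabilityTheory Matrix
open scoped BigOperators ENNReal

namespace Pool.Agent.K1H65.RP

open Pool.Agent.K1H9.RP

open Classical in
/-- `W(w) = E |det BM Y| 1{pat j (bary Y w)}` -/
noncomputable def WW (d j : ℕ) (w : Fin d → ℝ) : ℝ :=
  ∫ Y : Fin (d + 1) → Fin d → ℝ, |(BM Y).det| * (if pat j (bary Y w) then 1 else 0)
    ∂(gp (Fin (d + 1)) d)

open Classical in
theorem meas_ind (d j : ℕ) : Measurable fun q : (Fin (d + 1) → Fin d → ℝ) × (Fin d → ℝ) =>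
    |(BM q.1).det| * (if pat j (bary q.1 q.2) then (1 : ℝ) else 0) := by
  refine (continuous_det_BM.measurable.comp measurable_fst).norm.mul ?_
  exact Measurable.ite (measurableSet_pat_bary j) measurable_const measurable_const

theorem measurable_WW (d j : ℕ) : Measurable (WW d j) := by
  classical
  unfold WW
  exact ((meas_ind d j).stronglyMeasurable.integral_prod_left'
    (μ := gp (Fin (d + 1)) d)).measurable

theorem abs_WW_le (d j : ℕ) (w : Fin d → ℝ) :
    |WW d j w| ≤ ∫ Y : Fin (d + 1) → Fin d → ℝ, |(BM Y).det| ∂(gp (Fin (d + 1)) d) := by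
  classical
  unfold WW
  rw [← Real.norm_eq_abs]
  refine norm_integral_le_of_norm_le (integrable_abs_det d) (Filter.Eventually.of_forall
    fun Y => ?_)
  rw [norm_mul, Real.norm_eq_abs, abs_abs]
  refine mul_le_of_le_one_right (abs_nonneg _) ?_
  split_ifs <;> simp

/-- Fubini -/
theorem fub (d j : ℕ) (φ : (Fin d → ℝ) → (Fin d → ℝ)) (hφ : Measurable φ) :
    ∫ Y : Fin (d + 1) → Fin d → ℝ, |(BM Y).det| *
      (gv (Fin d)).real {z | pat j (bary Y (φ z))} ∂(gp (Fin (d + 1)) d) =
    ∫ z, WW d j (φ z) ∂(gv (Fin d)) := by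
  classical
  have h1 : ∀ Y : Fin (d + 1) → Fin d → ℝ, |(BM Y).det| *
      (gv (Fin d)).real {z | pat j (bary Y (φ z))} =
      ∫ z, |(BM Y).det| * (if pat j (bary Y (φ z)) then (1 : ℝ) else 0) ∂(gv (Fin d)) := by
    intro Y
    have h2 : MeasurableSet {z | pat j (bary Y (φ z))} := by
      have : Measurable fun z => ((Y, φ z) : (Fin (d + 1) → Fin d → ℝ) × (Fin d → ℝ)) :=
        measurable_const.prodMk hφ
      exact this (measurableSet_pat_bary j)
    rw [integral_const_mul]
    congr 1
    have h3 : (fun z => if pat j (bary Y (φ z)) then (1 : ℝ) else 0) =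
        Set.indicator {z | pat j (bary Y (φ z))} (fun _ => (1 : ℝ)) := by
      funext z
      rw [Set.indicator_apply]
      rfl
    rw [h3, integral_indicator_const _ h2, smul_eq_mul, mul_one]
  simp_rw [h1]
  rw [integral_integral_swap]
  · rfl
  · have hm : Measurable fun q : (Fin (d + 1) → Fin d → ℝ) × (Fin d → ℝ) =>
        |(BM q.1).det| * (if pat j (bary q.1 (φ q.2)) then (1 : ℝ) else 0) := by
      have : Measurable fun q : (Fin (d + 1) → Fin d → ℝ) × (Fin d → ℝ) => (q.1, φ q.2) :=
        measurable_fst.prodMk (hφ.comp measurable_snd)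
      exact (meas_ind d j).comp this
    have h4 : Integrable (fun q : (Fin (d + 1) → Fin d → ℝ) × (Fin d → ℝ) => |(BM q.1).det|)
        ((gp (Fin (d + 1)) d).prod (gv (Fin d))) := (integrable_abs_det d).comp_fst _
    refine h4.mono hm.aestronglyMeasurable (Filter.Eventually.of_forall fun q => ?_)
    change ‖|(BM q.1).det| * (if pat j (bary q.1 (φ q.2)) then (1 : ℝ) else 0)‖ ≤ _
    rw [norm_mul]
    refine mul_le_of_le_one_right (norm_nonneg _) ?_
    split_ifs <;> simp

theorem measurable_shear {d : ℕ} (β : Fin d → ℝ) (θ : ℝ) : Measurable (shear β θ) := by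
  unfold shear dotProduct
  fun_prop

theorem qq_eq (d j : ℕ) (ρ : ℝ) : qq d j ρ = ∫ g, WW d j (ρ • g) ∂(gv (Fin d)) :=
  fub d j (fun g => ρ • g) (measurable_id.const_smul ρ)

/-- the probability of the pattern -/
noncomputable def PPx (d j : ℕ) (x : Fin (d + 1) → Fin d → ℝ) : ℝ :=
  (gv (Fin d)).real {z | pat j (bary x z)}

theorem measurable_PPx (d j : ℕ) : Measurable (PPx d j) := by
  unfold PPx Measure.real
  exact (measurable_measure_prodMk_left (ν := gv (Fin d)) (measurableSet_pat_bary j)).ennreal_toReal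

/-- the joint integrand -/
noncomputable def FF (d D j k : ℕ) (x : Fin (d + 1) → Fin d → ℝ) (p : Fin (d + 1) → ℝ) : ℝ :=
  PPx d j x * (|(BM x).det| * (chi D k (sd p) * ((Real.sqrt (2 * Real.pi))⁻¹ ^ (d + 1) *
          Real.exp (-(∑ i, (BM x *ᵥ p) i ^ 2) / 2))))

theorem FF_nonneg (d D j k : ℕ) (x : Fin (d + 1) → Fin d → ℝ) (p : Fin (d + 1) → ℝ) :
    0 ≤ FF d D j k x p := by
  unfold FF PPx
  have := chi_nonneg D k (sd p)
  positivity

theorem measurable_gau (d : ℕ) : Measurable fun q : (Fin (d + 1) → Fin d → ℝ) ×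
    (Fin (d + 1) → ℝ) => Real.exp (-(∑ i, (BM q.1 *ᵥ q.2) i ^ 2) / 2) := by
  have h1 : Measurable fun q : (Fin (d + 1) → Fin d → ℝ) × (Fin (d + 1) → ℝ) =>
      ∑ i, (BM q.1 *ᵥ q.2) i ^ 2 := by
    refine Finset.measurable_sum _ fun i _ => Measurable.pow_const ?_ 2
    have h2 : (fun q : (Fin (d + 1) → Fin d → ℝ) × (Fin (d + 1) → ℝ) => (BM q.1 *ᵥ q.2) i) =
        fun q => ∑ l, BM q.1 i l * q.2 l := by
      funext q
      rfl
    rw [h2]
    refine Finset.measurable_sum _ fun l _ => Measurable.mul ?_ ?_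
    · exact ((continuous_BM.matrix_elem i l).measurable).comp measurable_fst
    · exact (measurable_pi_apply l).comp measurable_snd
  exact (h1.neg.div_const 2).exp

theorem measurable_FF (d D j k : ℕ) : Measurable fun q : (Fin (d + 1) → Fin d → ℝ) ×
    (Fin (d + 1) → ℝ) => FF d D j k q.1 q.2 := by
  unfold FF
  refine ((measurable_PPx d j).comp measurable_fst).mul
    ((continuous_det_BM.measurable.comp measurable_fst).norm.mul
      ((((measurable_chi D k).comp continuous_sd.measurable).comp measurable_snd).mul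
        ((measurable_gau d).const_mul _)))

theorem t_TF (h1 : S_TF1) (h2 : S_TF2) (h4 : S_TF4) : S_TF := by
  classical
  intro d
  obtain ⟨C4, hC4, h4⟩ := h4 d
  obtain ⟨c, hc⟩ : ∃ c : ℝ, c = (Real.sqrt (2 * Real.pi))⁻¹ ^ (d + 1) := ⟨_, rfl⟩
  have hc0 : 0 < c := by rw [hc]; positivity
  refine ⟨c * C4, by positivity, fun D j k => ?_⟩
  -- integrability of the Gaussian
  have hgau : ∀ᵐ x ∂(gp (Fin (d + 1)) d), (BM x).det ≠ 0 ∧
      Integrable fun p : Fin (d + 1) → ℝ => (Real.sqrt (2 * Real.pi))⁻¹ ^ (d + 1) *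
          Real.exp (-(∑ i, (BM x *ᵥ p) i ^ 2) / 2) := by
    filter_upwards [ae_det_ne_zero d] with x hx
    refine ⟨hx, ?_⟩
    have h3 := h1 d x hx (fun _ => 1)
    simp only [one_mul, integral_const, probReal_univ, smul_eq_mul, mul_one] at h3
    by_contra hcon
    rw [integral_undef hcon, mul_zero] at h3
    exact one_ne_zero h3
  have hmx : ∀ x : Fin (d + 1) → Fin d → ℝ, Measurable fun p : Fin (d + 1) → ℝ =>
      chi D k (sd p) := fun x => (measurable_chi D k).comp continuous_sd.measurable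
  have hFx : ∀ᵐ x ∂(gp (Fin (d + 1)) d), Integrable (FF d D j k x) ∧
      ∫ p, FF d D j k x p = ∫ h, PPx d j x * chi D k (sd (gco x h)) ∂(gv (Fin (d + 1))) := by
    filter_upwards [hgau] with x hx
    constructor
    · refine Integrable.const_mul (Integrable.const_mul ?_ _) _
      refine hx.2.mono ((hmx x).mul ?_).aestronglyMeasurable (Filter.Eventually.of_forall
        fun p => ?_)
      · exact ((measurable_gau d).comp (measurable_const.prodMk measurable_id)).const_mul _
      · rw [norm_mul]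
        refine mul_le_of_le_one_left (norm_nonneg _) ?_
        rw [Real.norm_of_nonneg (chi_nonneg _ _ _)]
        exact chi_le_one _ _ _
    · unfold FF
      rw [integral_const_mul, integral_const_mul, integral_const_mul,
        h1 d x hx.1 (fun p => chi D k (sd p))]
  have hprod : Integrable (fun q : (Fin (d + 1) → Fin d → ℝ) × (Fin (d + 1) → ℝ) =>
      FF d D j k q.1 q.2) ((gp (Fin (d + 1)) d).prod volume) := by
    rw [integrable_prod_iff (measurable_FF d D j k).aestronglyMeasurable]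
    refine ⟨hFx.mono fun x hx => hx.1, ?_⟩
    have h3 : AEStronglyMeasurable (fun x => ∫ p, ‖FF d D j k x p‖) (gp (Fin (d + 1)) d) :=
      ((measurable_FF d D j k).aestronglyMeasurable.norm
        (μ := (gp (Fin (d + 1)) d).prod volume)).integral_prod_right'
    refine Integrable.mono (integrable_const (1 : ℝ)) h3 ?_
    filter_upwards [hFx] with x hx
    have h5 : ∀ p, ‖FF d D j k x p‖ = FF d D j k x p := fun p =>
      Real.norm_of_nonneg (FF_nonneg _ _ _ _ _ _)
    simp_rw [h5]
    rw [hx.2, norm_one]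
    refine (norm_integral_le_of_norm_le_const (C := 1) (Filter.Eventually.of_forall
      fun h => ?_)).trans ?_
    · rw [norm_mul, Real.norm_of_nonneg (chi_nonneg _ _ _)]
      have h6 : ‖PPx d j x‖ ≤ 1 := by
        unfold PPx
        rw [Real.norm_of_nonneg measureReal_nonneg]
        exact measureReal_le_one
      exact mul_le_one₀ h6 (chi_nonneg _ _ _) (chi_le_one _ _ _)
    · simp
  -- the function of `p`
  obtain ⟨G, hG⟩ : ∃ G : (Fin (d + 1) → ℝ) → ℝ, G = fun p =>
    ∫ x, FF d D j k x p ∂(gp (Fin (d + 1)) d) := ⟨_, rfl⟩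
  have hTT : TT d D j k = ∫ p, G p := by
    rw [hG, ← integral_integral_swap hprod]
    unfold TT
    refine integral_congr_ae ?_
    filter_upwards [hFx] with x hx
    exact hx.2.symm
  have hGint : Integrable G := by
    rw [hG]
    exact hprod.integral_prod_right
  have hG0 : ∀ p, 0 ≤ G p := fun p => by
    rw [hG]
    exact integral_nonneg fun x => FF_nonneg _ _ _ _ _ _
  have hGp : ∀ p, G p = c * chi D k (sd p) * ((Real.sqrt (1 + ∑ c : Fin d, p c.succ ^ 2))⁻¹ ^
      (d + 2) * Real.exp (-((d : ℝ) + 1) * sd p ^ 2 / 2) *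
      ∫ z, WW d j (shear (fun c => p c.succ) (sd p) z) ∂(gv (Fin d))) := by
    intro p
    rw [← fub d j _ (measurable_shear _ _), ← h2 d j p, hG, ← integral_const_mul]
    refine integral_congr_ae (Filter.Eventually.of_forall fun x => ?_)
    simp only [FF, PPx, hc]
    ring
  have hGm : Measurable G := by
    rw [hG]
    exact ((measurable_FF d D j k).stronglyMeasurable.integral_prod_left'
      (μ := gp (Fin (d + 1)) d)).measurable
  -- splitting
  have hsplit := (volume_preserving_piFinSuccAbove (fun _ : Fin (d + 1) => ℝ) 0).symm _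
  have hcons : ∀ q : ℝ × (Fin d → ℝ),
      (MeasurableEquiv.piFinSuccAbove (fun _ : Fin (d + 1) => ℝ) 0).symm q =
        (Fin.cons q.1 q.2 : Fin (d + 1) → ℝ) := by
    intro q
    funext i
    refine Fin.cases ?_ (fun i => ?_) i
    · rfl
    · rfl
  have hGq : Integrable (fun q : ℝ × (Fin d → ℝ) => G (Fin.cons q.1 q.2))
      ((volume : Measure ℝ).prod (volume : Measure (Fin d → ℝ))) := by
    have h5 := (hsplit.integrable_comp_emb (MeasurableEquiv.measurableEmbedding _)).mpr hGint
    refine h5.congr (Filter.Eventually.of_forall fun q => ?_)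
    change G ((MeasurableEquiv.piFinSuccAbove (fun _ : Fin (d + 1) => ℝ) 0).symm q) = _
    rw [hcons]
  have hT2 : TT d D j k = ∫ β : Fin d → ℝ, ∫ α : ℝ, G (Fin.cons α β) := by
    rw [hTT, ← integral_prod_symm _ hGq, ← hsplit.integral_comp']
    refine integral_congr_ae (Filter.Eventually.of_forall fun q => ?_)
    change G ((MeasurableEquiv.piFinSuccAbove (fun _ : Fin (d + 1) => ℝ) 0).symm q) = _
    rw [hcons]
  obtain ⟨Q, hQ⟩ : ∃ Q : (Fin d → ℝ) → ℝ, Q = fun β => Real.sqrt (1 + ∑ c, β c ^ 2) := ⟨_, rfl⟩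
  have hQ0 : ∀ β, 0 < Q β := by
    intro β
    rw [hQ]
    exact Real.sqrt_pos.mpr (by positivity)
  have hQm : Measurable Q := by
    rw [hQ]
    fun_prop
  have hcv : ∀ g : ℝ → ℝ, ∀ β, ∫ α, g α = ∫ θ, Q β * g (Q β * θ) := by
    intro g β
    rw [integral_const_mul, Measure.integral_comp_mul_left g (Q β), smul_eq_mul, abs_inv,
      abs_of_pos (hQ0 β), ← mul_assoc, mul_inv_cancel₀ (hQ0 β).ne', one_mul]
  have hmeas : Measurable fun q : (Fin d → ℝ) × ℝ =>
      Q q.1 * G (Fin.cons (Q q.1 * q.2) q.1) := by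
    refine (hQm.comp measurable_fst).mul (hGm.comp ?_)
    refine measurable_pi_lambda _ fun i => ?_
    refine Fin.cases ?_ (fun i => ?_) i
    · exact (hQm.comp measurable_fst).mul measurable_snd
    · exact (measurable_pi_apply i).comp measurable_fst
  have hint2 : Integrable (fun q : (Fin d → ℝ) × ℝ => Q q.1 * G (Fin.cons (Q q.1 * q.2) q.1))
      ((volume : Measure (Fin d → ℝ)).prod (volume : Measure ℝ)) := by
    rw [integrable_prod_iff hmeas.aestronglyMeasurable]
    constructor
    · filter_upwards [hGq.prod_left_ae] with β hβ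
      exact (hβ.comp_mul_left' (hQ0 β).ne').const_mul _
    · have h5 : (fun β : Fin d → ℝ => ∫ θ, ‖Q β * G (Fin.cons (Q β * θ) β)‖) =
          fun β => ∫ α, G (Fin.cons α β) := by
        funext β
        rw [hcv (fun α => G (Fin.cons α β)) β]
        refine integral_congr_ae (Filter.Eventually.of_forall fun θ => ?_)
        exact Real.norm_of_nonneg (mul_nonneg (hQ0 β).le (hG0 _))
      rw [h5]
      exact hGq.integral_prod_right
  have hT3 : TT d D j k = ∫ θ : ℝ, ∫ β : Fin d → ℝ, Q β * G (Fin.cons (Q β * θ) β) := by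
    rw [← integral_integral_swap hint2, hT2]
    exact integral_congr_ae (Filter.Eventually.of_forall fun β => hcv _ β)
  rw [hT3, ← integral_const_mul]
  refine integral_congr_ae (Filter.Eventually.of_forall fun θ => ?_)
  have h6 : ∀ β : Fin d → ℝ, Q β * G (Fin.cons (Q β * θ) β) =
      (c * chi D k θ * Real.exp (-((d : ℝ) + 1) * θ ^ 2 / 2)) *
        ((Real.sqrt (1 + ∑ c, β c ^ 2))⁻¹ ^ (d + 1) *
          ∫ z, WW d j (shear β θ z) ∂(gv (Fin d))) := by
    intro β
    have h7 : sd (Fin.cons (Q β * θ) β : Fin (d + 1) → ℝ) = θ := by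
      unfold sd
      simp only [Fin.cons_zero, Fin.cons_succ]
      have : Real.sqrt (1 + ∑ c, β c ^ 2) = Q β := by rw [hQ]
      rw [this, mul_comm, mul_div_assoc, div_self (hQ0 β).ne', mul_one]
    rw [hGp, h7]
    simp only [Fin.cons_succ]
    have h8 : Real.sqrt (1 + ∑ c, β c ^ 2) = Q β := by rw [hQ]
    rw [h8]
    have h9 : Q β * (Q β)⁻¹ ^ (d + 2) = (Q β)⁻¹ ^ (d + 1) := by
      rw [pow_succ _ (d + 1), mul_comm ((Q β)⁻¹ ^ (d + 1)), ← mul_assoc,
        mul_inv_cancel₀ (hQ0 β).ne', one_mul]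
    rw [← h9]
    ring
  simp only [h6]
  rw [integral_const_mul, h4 θ (WW d j) (measurable_WW d j) ⟨_, abs_WW_le d j⟩]
  simp only [← qq_eq]
  ring

end Pool.Agent.K1H65.RP
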